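import Pool.Agent.H91.CB.Gen

namespace Pool.Agent.H91.TP8

/-- The solutions `(x, y, z)` of `a^x + b^y = c^z` in positive integers. -/
def solutions (a b c : ℕ) : Set (ℕ × ℕ × ℕ) :=
  {t | 0 < t.1 ∧ 0 < t.2.1 ∧ 0 < t.2.2 ∧ a ^ t.1 + b ^ t.2.1 = c ^ t.2.2}

/-- `N(a,b,c)`, the number (possibly infinite) of solutions. -/
noncomputable def numSol (a b c : ℕ) : ℕ∞ := (solutions a b c).encard

/-- There is a constant `A` such that for pairwise distinct primes `a, b, c` with `max(a,b,c) > A`,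
if `a^x + b^y = c^z` has more than one solution in positive integers, then `{a, b} = {2, p}` for a
prime `p ≡ 1 (mod 8)` such that every power `2^s` that divides `p - 1` satisfies
`s² ≤ 400 log p log log c`. -/
theorem result : ∃ A : ℝ, ∀ a b c : ℕ, a.Prime → b.Prime → c.Prime → a ≠ b → a ≠ c → b ≠ c →
    A < (max (max a b) c : ℕ) → 1 < numSol a b c →
      ∃ p : ℕ, ((a = 2 ∧ b = p) ∨ (a = p ∧ b = 2)) ∧ p % 8 = 1 ∧
        ∀ s : ℕ, 2 ^ s ∣ p - 1 → (s : ℝ) ^ 2 ≤ 400 * Real.log p * Real.log (Real.log c) := by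
  obtain ⟨T1, hT1⟩ := Pool.Agent.H91.CB.coreB
  obtain ⟨T2, hT2⟩ := Pool.Agent.H91.CB.general
  refine ⟨Real.exp (max T1 T2), fun a b c ha hb hc hab hac hbc hA hlt => ?_⟩
  obtain ⟨p, hp, hsh, i, j, x, y, z, hi, hj, hform, h24, hl, hx, hy, hz, h, hpar⟩ :=
    hT2 (max T1 T2) (le_max_right _ _) a b c ha hb hc hab hac hbc hA hlt
  refine ⟨p, hsh, by omega, ?_⟩
  exact hT1 p c i j x y z hp hc (by omega) hi hj hform hy hz h (le_trans (le_max_left _ _) hl)

end Pool.Agent.H91.TP8
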